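import Pool.Agent.UL7.Stmts

set_option autoImplicit false

namespace Pool.Agent.UL7.H77

open MeasureTheory Set Pool.Agent.UL3 Pool.Agent.UL4 Pool.Agent.UL5

theorem icc_of {S : Set ℝ} (hc : IsCompact S) (hv : Convex ℝ S) (hn : S.Nonempty) :
    ∃ α β : ℝ, α ≤ β ∧ S = Icc α β := by
  have hα := hc.sInf_mem hn
  have hβ := hc.sSup_mem hn
  have hle : sInf S ≤ sSup S := csInf_le hc.bddBelow hβ
  refine ⟨sInf S, sSup S, hle, Subset.antisymm ?_ ?_⟩
  · intro x hx
    exact ⟨csInf_le hc.bddBelow hx, le_csSup hc.bddAbove hx⟩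
  · intro x hx
    exact hv.ordConnected.out hα hβ hx

theorem sgm_cpt {X : Set (ℝ × ℝ)} (hX : IsCompact X) (v : ℝ × ℝ) : IsCompact (sgm X v) := by
  have e : sgm X v = (fun q : (ℝ × ℝ) × ℝ => q.1 + q.2 • v) '' (X ×ˢ Icc (-1 : ℝ) 1) := by
    ext p
    constructor
    · rintro ⟨x, hx, t, ht, rfl⟩
      exact ⟨(x, t), ⟨hx, abs_le.1 ht⟩, rfl⟩
    · rintro ⟨⟨x, t⟩, ⟨hx, ht⟩, rfl⟩
      exact ⟨x, hx, t, abs_le.2 ht, rfl⟩
  rw [e]
  exact (hX.prod isCompact_Icc).image (by fun_prop)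

theorem slice {X : Set (ℝ × ℝ)} (h : PC X) (y : ℝ) :
    (volume : Measure ℝ) ((fun x => (x, y)) ⁻¹' sgm X (1, 0)) =
      (volume : Measure ℝ) ((fun x => (x, y)) ⁻¹' X) +
        (Prod.snd '' X).indicator (fun _ => (2 : ENNReal)) y := by
  by_cases hy : y ∈ Prod.snd '' X
  · rw [indicator_of_mem hy]
    have hc : IsCompact ((fun x : ℝ => (x, y)) ⁻¹' X) := by
      have hcl : IsClosed ((fun x : ℝ => (x, y)) ⁻¹' X) :=
        h.cpt.isClosed.preimage (by fun_prop)
      have hsub : ((fun x : ℝ => (x, y)) ⁻¹' X) ⊆ Prod.fst '' X := fun x hx => ⟨(x, y), hx, rfl⟩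
      exact (h.cpt.image continuous_fst).of_isClosed_subset hcl hsub
    have hv : Convex ℝ ((fun x : ℝ => (x, y)) ⁻¹' X) := by
      intro x hx z hz a b ha hb hab
      have h1 := h.cvx hx hz ha hb hab
      have e : a • ((x, y) : ℝ × ℝ) + b • (z, y) = (a • x + b • z, y) := by
        refine Prod.ext rfl ?_
        show a * y + b * y = y
        rw [← add_mul, hab, one_mul]
      rw [e] at h1
      exact h1
    have hn : ((fun x : ℝ => (x, y)) ⁻¹' X).Nonempty := by
      obtain ⟨p, hp, rfl⟩ := hy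
      exact ⟨p.1, hp⟩
    obtain ⟨α, β, hαβ, e⟩ := icc_of hc hv hn
    have e2 : (fun x : ℝ => (x, y)) ⁻¹' sgm X (1, 0) = Icc (α - 1) (β + 1) := by
      have e3 : (fun x : ℝ => (x, y)) ⁻¹' sgm X (1, 0) =
          {x | ∃ z ∈ (fun x : ℝ => (x, y)) ⁻¹' X, ∃ t : ℝ, |t| ≤ 1 ∧ x = z + t} := by
        ext x
        constructor
        · rintro ⟨p, hp, t, ht, hpt⟩
          have h1 : x = p.1 + t * 1 := congrArg Prod.fst hpt
          have h2 : y = p.2 + t * 0 := congrArg Prod.snd hpt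
          refine ⟨p.1, ?_, t, ht, by linarith⟩
          have h3 : p = (p.1, y) := Prod.ext rfl (by rw [h2]; ring)
          show (p.1, y) ∈ X
          rw [← h3]
          exact hp
        · rintro ⟨z, hz, t, ht, rfl⟩
          refine ⟨(z, y), hz, t, ht, ?_⟩
          refine Prod.ext ?_ ?_
          · show z + t = z + t * 1
            ring
          · show y = y + t * 0
            ring
      rw [e3, e]
      ext x
      constructor
      · rintro ⟨z, ⟨hz1, hz2⟩, t, ht, rfl⟩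
        obtain ⟨h1, h2⟩ := abs_le.1 ht
        exact ⟨by linarith, by linarith⟩
      · rintro ⟨h1, h2⟩
        by_cases h3 : x < α
        · exact ⟨α, ⟨le_rfl, hαβ⟩, x - α, abs_le.2 ⟨by linarith, by linarith⟩, by ring⟩
        · by_cases h4 : β < x
          · exact ⟨β, ⟨hαβ, le_rfl⟩, x - β, abs_le.2 ⟨by linarith, by linarith⟩, by ring⟩
          · exact ⟨x, ⟨not_lt.1 h3, not_lt.1 h4⟩, 0, by simp, by ring⟩
    rw [e2, e, Real.volume_Icc, Real.volume_Icc]
    have e5 : β + 1 - (α - 1) = (β - α) + 2 := by ring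
    rw [e5, ENNReal.ofReal_add (by linarith) (by norm_num)]
    congr 1
    exact ENNReal.ofReal_ofNat 2
  · rw [indicator_of_notMem hy]
    have e1 : (fun x : ℝ => (x, y)) ⁻¹' X = ∅ := by
      ext x
      exact ⟨fun hx => hy ⟨(x, y), hx, rfl⟩, fun hx => absurd hx (notMem_empty x)⟩
    have e2 : (fun x : ℝ => (x, y)) ⁻¹' sgm X (1, 0) = ∅ := by
      ext x
      constructor
      · rintro ⟨p, hp, t, ht, hpt⟩
        have h2 : y = p.2 + t * 0 := congrArg Prod.snd hpt
        exact absurd ⟨p, hp, by rw [h2]; ring⟩ hy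
      · exact fun hx => absurd hx (notMem_empty x)
    rw [e1, e2, measure_empty, add_zero]

theorem sgd : SgdStmt := by
  intro X h
  have hne : X.Nonempty := h.int.mono interior_subset
  have hJc : IsCompact (Prod.snd '' X) := h.cpt.image continuous_snd
  have hJv : Convex ℝ (Prod.snd '' X) := h.cvx.linear_image (LinearMap.snd ℝ ℝ ℝ)
  obtain ⟨c, d, hcd, hJ⟩ := icc_of hJc hJv (hne.image _)
  have hSc := sgm_cpt h.cpt (1, 0)
  have hvol : (volume : Measure (ℝ × ℝ)) (sgm X (1, 0)) =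
      (volume : Measure (ℝ × ℝ)) X + ENNReal.ofReal (2 * (d - c)) := by
    rw [Measure.volume_eq_prod, Measure.prod_apply_symm hSc.measurableSet,
      Measure.prod_apply_symm h.cpt.measurableSet]
    rw [lintegral_congr (slice h), lintegral_add_right _
      (measurable_const.indicator hJc.measurableSet), lintegral_indicator hJc.measurableSet,
      setLIntegral_const, hJ, Real.volume_Icc, ENNReal.ofReal_mul (by norm_num : (0 : ℝ) ≤ 2)]
    congr 1
    congr 1
    exact (ENNReal.ofReal_ofNat 2).symm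
  have hH : Hm (dh X) (1, 0) = (d - c) / 2 := by
    unfold Hm
    refine IsGreatest.csSup_eq ⟨?_, ?_⟩
    · have hc : c ∈ Prod.snd '' X := by rw [hJ]; exact ⟨le_rfl, hcd⟩
      have hd : d ∈ Prod.snd '' X := by rw [hJ]; exact ⟨hcd, le_rfl⟩
      obtain ⟨a, ha, hac⟩ := hc
      obtain ⟨b, hb, hbd⟩ := hd
      refine ⟨(1 / 2 : ℝ) • (b - a), ⟨b, hb, a, ha, rfl⟩, ?_⟩
      show 1 * (1 / 2 * (b.2 - a.2)) - 0 * _ = (d - c) / 2
      rw [hac, hbd]
      ring
    · rintro _ ⟨_, ⟨a, ha, b, hb, rfl⟩, rfl⟩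
      have h1 : a.2 ∈ Icc c d := by rw [← hJ]; exact ⟨a, ha, rfl⟩
      have h2 : b.2 ∈ Icc c d := by rw [← hJ]; exact ⟨b, hb, rfl⟩
      show 1 * (1 / 2 * (a.2 - b.2)) - 0 * _ ≤ (d - c) / 2
      linarith [h1.2, h2.1]
  rw [hH]
  unfold ar Measure.real
  rw [hvol, ENNReal.toReal_add h.cpt.measure_lt_top.ne ENNReal.ofReal_ne_top,
    ENNReal.toReal_ofReal (by linarith)]
  ring

end Pool.Agent.UL7.H77
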